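import Mathlib

/-!
# Kernel-perfect biorientations do not suffice for derangement assignments

For every odd `n ≥ 3` we take the cycle of length `n` with every edge doubled: one copy is
straight and oriented one way round the cycle, the other copy is twisted and oriented both
ways.  All out-degrees are `3`, the biorientation is kernel-perfect, all lists are
`{0,1,2,3}` and the twisted edges carry the derangement `0 ↔ 1, 2 ↔ 3`.
There is no colouring.
-/

namespace Pool.Agent.Results.MP_201e5f_co.DoubledCycles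

/-! ## Definitions -/

/-- A loopless multigraph with vertex set `V` and edge set `E`; the edge `e` joins `src e`
and `tgt e` (the order of the two endpoints is only used to describe the other data). -/
structure Multigraph (V E : Type) where
  src : E → V
  tgt : E → V
  loopless : ∀ e, src e ≠ tgt e

/-- A biorientation: every edge gives the arc `(src, tgt)`, the arc `(tgt, src)`, or both. -/
structure Biorientation (V E : Type) where
  /-- the arc `(src e, tgt e)` is present -/
  fwd : E → Bool
  /-- the arc `(tgt e, src e)` is present -/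
  bwd : E → Bool
  some_arc : ∀ e, fwd e = true ∨ bwd e = true

variable {V E : Type}

/-- there is an arc from `u` to `v` -/
def Arc (G : Multigraph V E) (D : Biorientation V E) (u v : V) : Prop :=
  ∃ e, (G.src e = u ∧ G.tgt e = v ∧ D.fwd e = true) ∨
    (G.src e = v ∧ G.tgt e = u ∧ D.bwd e = true)

/-- the out-degree, counted with multiplicity -/
def outDegree [Fintype E] [DecidableEq V] (G : Multigraph V E) (D : Biorientation V E)
    (v : V) : ℕ :=
  (Finset.univ.filter fun e => G.src e = v ∧ D.fwd e = true).card +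
    (Finset.univ.filter fun e => G.tgt e = v ∧ D.bwd e = true).card

/-- every induced subdigraph `D[W]` has a kernel `U` -/
def KernelPerfect (G : Multigraph V E) (D : Biorientation V E) : Prop :=
  ∀ W : Set V, ∃ U ⊆ W, (∀ u ∈ U, ∀ v ∈ U, ¬ Arc G D u v) ∧
    ∀ v ∈ W, v ∉ U → ∃ u ∈ U, Arc G D v u

/-- A correspondence assignment with colours in `ℕ`: lists `L v`, and for each edge `e` a
partial matching `M e` between `L (src e)` and `L (tgt e)`. -/
structure Assignment (G : Multigraph V E) where
  L : V → Finset ℕ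
  M : E → ℕ → ℕ → Prop
  mem_left : ∀ e c c', M e c c' → c ∈ L (G.src e)
  mem_right : ∀ e c c', M e c c' → c' ∈ L (G.tgt e)
  unique_right : ∀ e c c₁ c₂, M e c c₁ → M e c c₂ → c₁ = c₂
  unique_left : ∀ e c c₁ c₂, M e c₁ c → M e c₂ c → c₁ = c₂

/-- an `(L, C)`-colouring -/
def IsColouring {G : Multigraph V E} (A : Assignment G) (φ : V → ℕ) : Prop :=
  (∀ v, φ v ∈ A.L v) ∧ ∀ e, ¬ A.M e (φ (G.src e)) (φ (G.tgt e))

/-- `e` is straight: only equal colours are matched -/
def Straight {G : Multigraph V E} (A : Assignment G) (e : E) : Prop :=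
  ∀ c c', A.M e c c' → c = c'

/-- a derangement assignment: on a twisted edge no colour is matched with itself -/
def IsDerangement {G : Multigraph V E} (A : Assignment G) : Prop :=
  ∀ e, ¬ Straight A e → ∀ c, ¬ A.M e c c

/-- the hypotheses of Q1 -/
def Hypotheses [Fintype E] [DecidableEq V] (G : Multigraph V E) (D : Biorientation V E)
    (A : Assignment G) : Prop :=
  KernelPerfect G D ∧ IsDerangement A ∧
    (∀ e, ¬ Straight A e → D.fwd e = true ∧ D.bwd e = true) ∧
    ∀ v, outDegree G D v + 1 ≤ (A.L v).card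

/-! ## A symmetric relation on a finite set has kernels -/

lemma symmetric_kernel {V : Type} [Finite V] (R : V → V → Prop) (hs : ∀ u v, R u v → R v u)
    (hi : ∀ u, ¬ R u u) (W : Set V) :
    ∃ U ⊆ W, (∀ u ∈ U, ∀ v ∈ U, ¬ R u v) ∧ ∀ v ∈ W, v ∉ U → ∃ u ∈ U, R v u := by
  classical
  -- a maximal independent subset of W
  obtain ⟨U, hU⟩ := Set.Finite.exists_maximal
    (Set.toFinite {U : Set V | U ⊆ W ∧ ∀ u ∈ U, ∀ v ∈ U, ¬ R u v})
    ⟨∅, Set.empty_subset _, by simp⟩
  obtain ⟨⟨hUW, hind⟩, hmax⟩ := hU
  refine ⟨U, hUW, hind, ?_⟩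
  intro v hv hvU
  by_contra hcon
  push Not at hcon
  have hins : insert v U ∈ {U : Set V | U ⊆ W ∧ ∀ u ∈ U, ∀ v ∈ U, ¬ R u v} := by
    refine ⟨Set.insert_subset hv hUW, ?_⟩
    intro a ha b hb hab
    rcases ha with rfl | ha <;> rcases hb with rfl | hb
    · exact hi _ hab
    · exact hcon b hb hab
    · exact hcon a ha (hs _ _ hab)
    · exact hind a ha b hb hab
  have := hmax hins (Set.subset_insert v U)
  exact hvU (this (Set.mem_insert v U))

/-! ## The example -/

/-- The doubled cycle: the edges `(i, false)` and `(i, true)` both join `i` and `i + 1`. -/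
def G (n : ℕ) (hn : 3 ≤ n) : Multigraph (ZMod n) (ZMod n × Bool) where
  src e := e.1
  tgt e := e.1 + 1
  loopless := by
    intro e h
    have h1 : (1 : ZMod n) = 0 := by
      have := h
      simpa using this
    have : Fact (1 < n) := ⟨by omega⟩
    exact one_ne_zero h1

/-- straight edges `(i, false)` go from `i` to `i + 1`, twisted edges `(i, true)` both ways -/
def D (n : ℕ) : Biorientation (ZMod n) (ZMod n × Bool) where
  fwd _ := true
  bwd e := e.2
  some_arc _ := Or.inl rfl

/-- all lists are `{0,1,2,3}`; straight edges match equal colours, twisted edges match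
`0 ↔ 1` and `2 ↔ 3` -/
def A (n : ℕ) (hn : 3 ≤ n) : Assignment (G n hn) where
  L _ := {0, 1, 2, 3}
  M e c c' := c < 4 ∧ c' < 4 ∧ c / 2 = c' / 2 ∧ (c = c' ↔ e.2 = false)
  mem_left := by
    rintro e c c' ⟨h, -⟩
    interval_cases c <;> simp
  mem_right := by
    rintro e c c' ⟨-, h, -⟩
    interval_cases c' <;> simp
  unique_right := by
    rintro ⟨e, b⟩ c c₁ c₂ ⟨h1, h2, h3, h4⟩ ⟨h1', h2', h3', h4'⟩
    cases b
    · simp only [iff_true] at h4 h4'
      omega
    · simp only [Bool.true_eq_false, iff_false] at h4 h4'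
      omega
  unique_left := by
    rintro ⟨e, b⟩ c c₁ c₂ ⟨h1, h2, h3, h4⟩ ⟨h1', h2', h3', h4'⟩
    cases b
    · simp only [iff_true] at h4 h4'
      omega
    · simp only [Bool.true_eq_false, iff_false] at h4 h4'
      omega

lemma twisted_iff (n : ℕ) (hn : 3 ≤ n) (e : ZMod n × Bool) (h : ¬ Straight (A n hn) e) :
    e.2 = true := by
  by_contra hb
  apply h
  rintro c c' ⟨-, -, -, h4⟩
  exact h4.2 (by simpa using hb)

lemma hypotheses (n : ℕ) (hn : 3 ≤ n) [Fintype (ZMod n)] :
    Hypotheses (G n hn) (D n) (A n hn) := by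
  classical
  have : NeZero n := ⟨by omega⟩
  refine ⟨?_, ?_, ?_, ?_⟩
  · -- kernel-perfect
    have hsymm : ∀ u v, Arc (G n hn) (D n) u v → Arc (G n hn) (D n) v u := by
      rintro u v ⟨⟨i, b⟩, h | h⟩
      · exact ⟨(i, true), Or.inr ⟨h.1, h.2.1, rfl⟩⟩
      · exact ⟨(i, true), Or.inl ⟨h.1, h.2.1, rfl⟩⟩
    have hirr : ∀ u, ¬ Arc (G n hn) (D n) u u := by
      rintro u ⟨e, h | h⟩
      · exact (G n hn).loopless e (h.1.trans h.2.1.symm)
      · exact (G n hn).loopless e (h.1.trans h.2.1.symm)
    exact fun W => symmetric_kernel _ hsymm hirr W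
  · -- derangement
    rintro e he c ⟨-, -, -, h4⟩
    have h1 := twisted_iff n hn e he
    have h2 := h4.1 rfl
    rw [h1] at h2
    exact absurd h2 (by decide)
  · intro e he
    exact ⟨rfl, twisted_iff n hn e he⟩
  · intro v
    have h1 : (Finset.univ.filter fun e : ZMod n × Bool =>
        (G n hn).src e = v ∧ (D n).fwd e = true) ⊆ {(v, false), (v, true)} := by
      rintro ⟨i, b⟩ he
      have h := (Finset.mem_filter.1 he).2.1
      change i = v at h
      subst h
      cases b <;> simp
    have h2 : (Finset.univ.filter fun e : ZMod n × Bool =>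
        (G n hn).tgt e = v ∧ (D n).bwd e = true) ⊆ {(v - 1, true)} := by
      rintro ⟨i, b⟩ he
      obtain ⟨-, h, hb⟩ := Finset.mem_filter.1 he
      change i + 1 = v at h
      change b = true at hb
      subst h hb
      simp
    have c1 := Finset.card_le_card h1
    have c2 := Finset.card_le_card h2
    have c3 : ({(v, false), (v, true)} : Finset (ZMod n × Bool)).card ≤ 2 :=
      Finset.card_le_two
    have c4 : ({(v - 1, true)} : Finset (ZMod n × Bool)).card = 1 := Finset.card_singleton _
    have c5 : ((A n hn).L v).card = 4 := rfl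
    unfold outDegree
    rw [c5]
    omega

lemma no_colouring (n : ℕ) (hn : 3 ≤ n) (hodd : Odd n) (φ : ZMod n → ℕ) :
    ¬ IsColouring (A n hn) φ := by
  rintro ⟨hL, hM⟩
  have hlt : ∀ v, φ v < 4 := by
    intro v
    have h := hL v
    change φ v ∈ ({0, 1, 2, 3} : Finset ℕ) at h
    simp only [Finset.mem_insert, Finset.mem_singleton] at h
    omega
  have hne : ∀ i : ZMod n, φ i / 2 ≠ φ (i + 1) / 2 := by
    intro i h
    by_cases he : φ i = φ (i + 1)
    · exact hM (i, false) ⟨hlt _, hlt _, h, by simp [G, he]⟩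
    · exact hM (i, true) ⟨hlt _, hlt _, h, by simp [G, he]⟩
  -- the blocks alternate round the odd cycle
  have halt : ∀ k : ℕ, φ ((k : ZMod n)) / 2 = if Even k then φ 0 / 2 else 1 - φ 0 / 2 := by
    intro k
    have h0 := hlt 0
    induction k with
    | zero => simp
    | succ k ih =>
      have h1 := hne (k : ZMod n)
      have h2 := hlt ((k : ZMod n) + 1)
      rw [ih] at h1
      rw [Nat.cast_succ]
      by_cases hk : Even k
      · rw [if_pos hk] at h1
        rw [if_neg (by rw [Nat.even_add_one]; simpa using hk)]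
        omega
      · rw [if_neg hk] at h1
        rw [if_pos (by rw [Nat.even_add_one]; exact hk)]
        omega
  have h := halt n
  rw [if_neg (Nat.not_even_iff_odd.2 hodd)] at h
  rw [ZMod.natCast_self] at h
  have h0 := hlt 0
  omega

/-- Q1 is false; for every odd `n ≥ 3` the doubled cycle of length `n` is a
counterexample. -/
theorem result :
    (∀ (n : ℕ) (_ : Fintype (ZMod n)), Odd n → ∀ hn : 3 ≤ n,
      Hypotheses (G n hn) (D n) (A n hn) ∧ ¬ ∃ φ, IsColouring (A n hn) φ) ∧
    ¬ ∀ (V E : Type) [Fintype V] [Fintype E] [DecidableEq V] (G : Multigraph V E)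
      (D : Biorientation V E) (A : Assignment G),
      Hypotheses G D A → ∃ φ, IsColouring A φ := by
  refine ⟨fun n _ hodd hn => ⟨hypotheses n hn, fun ⟨φ, h⟩ => no_colouring n hn hodd φ h⟩,
    fun h => ?_⟩
  obtain ⟨φ, hφ⟩ := h (ZMod 3) (ZMod 3 × Bool) (G 3 le_rfl) (D 3) (A 3 le_rfl)
    (hypotheses 3 le_rfl)
  exact no_colouring 3 le_rfl (by decide) φ hφ

end Pool.Agent.Results.MP_201e5f_co.DoubledCycles
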